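import Mathlib
import Pool.Agent.Results.MP_a7d15e_an.BidualFailsSSD2P

/-!
# The symmetric strong diameter two property and all the even duals

For every Banach space `Y` whose bidual fails the symmetric strong diameter two property (SSD2P)
there is a Banach space `Z` with the SSD2P, of which `Y` is a 1-complemented subspace, whose bidual
fails the SSD2P. If moreover the closed unit ball of `Y` has a strongly exposed point (for example if
`Y` is a Hilbert space, of arbitrary density), then none of the even duals `Z^(2k)`, `k ≥ 1`, has the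
SSD2P: their unit balls have strongly exposed points.
-/

set_option autoImplicit false

namespace Pool.Agent.Results.MP_a7d15e_an.AllEvenDuals

open Pool.Agent.Results.MP_a7d15e_an.BidualFailsSSD2P

universe u v w

/-- A real normed space, bundled. -/
structure NSp : Type (u + 1) where
  carrier : Type u
  [grp : NormedAddCommGroup carrier]
  [mod : NormedSpace ℝ carrier]

attribute [instance] NSp.grp NSp.mod

/-- The bidual of a real normed space. -/
noncomputable def NSp.bidual (E : NSp.{u}) : NSp.{u} := ⟨DualSpace (DualSpace E.carrier)⟩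

/-- The even dual `E^(2k)`. -/
noncomputable def evenDual (E : NSp.{u}) (k : ℕ) : NSp.{u} := NSp.bidual^[k] E

/-- `Y` is isometric to a 1-complemented subspace of `Z`. -/
def OneComplemented (Y : Type u) (Z : Type v) [NormedAddCommGroup Y] [NormedSpace ℝ Y]
    [NormedAddCommGroup Z] [NormedSpace ℝ Z] : Prop :=
  ∃ (j : Y →ₗᵢ[ℝ] Z) (P : Z →L[ℝ] Y), (∀ z, ‖P z‖ ≤ ‖z‖) ∧ ∀ y, P (j y) = y

/-- The closed unit ball of `X` has a strongly exposed point. -/
def HasStronglyExposedPoint (X : Type u) [NormedAddCommGroup X] [NormedSpace ℝ X] : Prop :=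
  ∃ (x : X) (f : DualSpace X), StronglyExposedBy X x f

/-! ## The dual space -/

section api

variable {X : Type u} [NormedAddCommGroup X] [NormedSpace ℝ X]

theorem ev_add (f : DualSpace X) (x y : X) : f.eval (x + y) = f.eval x + f.eval y :=
  map_add (show StrongDual ℝ X from f) x y

theorem ev_sub (f : DualSpace X) (x y : X) : f.eval (x - y) = f.eval x - f.eval y :=
  map_sub (show StrongDual ℝ X from f) x y

theorem ev_smul (f : DualSpace X) (c : ℝ) (x : X) : f.eval (c • x) = c * f.eval x :=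
  map_smul (show StrongDual ℝ X from f) c x

theorem ev_zero (f : DualSpace X) : f.eval 0 = 0 := map_zero (show StrongDual ℝ X from f)

theorem add_ev (f g : DualSpace X) (x : X) : (f + g).eval x = f.eval x + g.eval x := rfl

theorem sub_ev (f g : DualSpace X) (x : X) : (f - g).eval x = f.eval x - g.eval x := rfl

theorem smul_ev (c : ℝ) (f : DualSpace X) (x : X) : (c • f).eval x = c * f.eval x := rfl

theorem abs_ev_le (f : DualSpace X) (x : X) : |f.eval x| ≤ ‖f‖ * ‖x‖ :=
  (show StrongDual ℝ X from f).le_opNorm x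

theorem norm_le (f : DualSpace X) {C : ℝ} (hC : 0 ≤ C) (h : ∀ x, |f.eval x| ≤ C * ‖x‖) :
    ‖f‖ ≤ C :=
  (show StrongDual ℝ X from f).opNorm_le_bound hC h

theorem ev_le_one {f : DualSpace X} {x : X} (hf : ‖f‖ ≤ 1) (hx : ‖x‖ ≤ 1) : f.eval x ≤ 1 := by
  refine (le_abs_self _).trans ((abs_ev_le f x).trans ?_)
  exact mul_le_one₀ hf (norm_nonneg _) hx

theorem ext_ev {f g : DualSpace X} (h : ∀ x, f.eval x = g.eval x) : f = g :=
  ContinuousLinearMap.ext (f := (show StrongDual ℝ X from f)) (g := (show StrongDual ℝ X from g)) h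

/-- a functional from a bounded linear map -/
noncomputable def mk (l : X →ₗ[ℝ] ℝ) (C : ℝ) (h : ∀ x, |l x| ≤ C * ‖x‖) : DualSpace X :=
  (l.mkContinuous C h : StrongDual ℝ X)

theorem mk_ev (l : X →ₗ[ℝ] ℝ) (C : ℝ) (h : ∀ x, |l x| ≤ C * ‖x‖) (x : X) :
    (mk l C h).eval x = l x := rfl

theorem norm_le_ball (f : DualSpace X) {C : ℝ} (h : ∀ x : X, ‖x‖ ≤ 1 → f.eval x ≤ C) :
    ‖f‖ ≤ C := by
  have hC : 0 ≤ C := by
    have := h 0 (by rw [norm_zero]; exact zero_le_one)
    rwa [ev_zero] at this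
  refine norm_le f hC fun x => ?_
  by_cases hx : x = 0
  · rw [hx, ev_zero, abs_zero, norm_zero, mul_zero]
  · have hn : 0 < ‖x‖ := norm_pos_iff.2 hx
    have key : ∀ s : ℝ, |s| = 1 → s * f.eval x ≤ C * ‖x‖ := by
      intro s hs
      have h1 := h ((s * ‖x‖⁻¹) • x) (by
        rw [norm_smul, norm_mul, Real.norm_eq_abs, hs, one_mul, norm_inv, norm_norm,
          inv_mul_cancel₀ hn.ne'])
      rw [ev_smul] at h1
      have h2 : s * f.eval x = ‖x‖ * (s * ‖x‖⁻¹ * f.eval x) := by
        field_simp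
      rw [h2, mul_comm C]
      exact mul_le_mul_of_nonneg_left h1 hn.le
    rw [abs_le]
    constructor
    · have := key (-1) (by norm_num)
      linarith
    · have := key 1 (by norm_num)
      linarith

theorem exists_near (f : DualSpace X) {δ : ℝ} (hδ : 0 < δ) :
    ∃ x : X, ‖x‖ ≤ 1 ∧ ‖f‖ - δ < f.eval x := by
  by_contra hcon
  push Not at hcon
  have := norm_le_ball f hcon
  linarith

end api

/-! ## Adjoints -/

section adj

variable {E : Type u} {A : Type v} [NormedAddCommGroup E] [NormedSpace ℝ E]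
  [NormedAddCommGroup A] [NormedSpace ℝ A]

/-- the adjoint of a contraction -/
noncomputable def adj (T : E →ₗ[ℝ] A) (hT : ∀ e, ‖T e‖ ≤ ‖e‖) : DualSpace A →ₗ[ℝ] DualSpace E where
  toFun f := mk
    { toFun := fun e => f.eval (T e)
      map_add' := fun x y => by rw [map_add, ev_add]
      map_smul' := fun c x => by rw [map_smul, ev_smul]; rfl } ‖f‖
    (fun e => (abs_ev_le f _).trans (mul_le_mul_of_nonneg_left (hT e) (norm_nonneg _)))
  map_add' f g := ext_ev fun _ => rfl
  map_smul' c f := ext_ev fun _ => rfl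

theorem adj_ev (T : E →ₗ[ℝ] A) (hT : ∀ e, ‖T e‖ ≤ ‖e‖) (f : DualSpace A) (e : E) :
    (adj T hT f).eval e = f.eval (T e) := rfl

theorem norm_adj (T : E →ₗ[ℝ] A) (hT : ∀ e, ‖T e‖ ≤ ‖e‖) (f : DualSpace A) :
    ‖adj T hT f‖ ≤ ‖f‖ :=
  norm_le _ (norm_nonneg _) fun e => (abs_ev_le f _).trans
    (mul_le_mul_of_nonneg_left (hT e) (norm_nonneg _))

end adj

/-! ## Sums with the maximum norm -/

/-- `E` is the direct sum of `A` and `B` with the maximum norm. -/
structure MSum (E : Type u) (A : Type v) (B : Type w) [NormedAddCommGroup E] [NormedSpace ℝ E]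
    [NormedAddCommGroup A] [NormedSpace ℝ A] [NormedAddCommGroup B] [NormedSpace ℝ B] where
  p : E →ₗ[ℝ] A
  q : E →ₗ[ℝ] B
  s : A →ₗ[ℝ] E
  t : B →ₗ[ℝ] E
  ps : ∀ a, p (s a) = a
  qt : ∀ b, q (t b) = b
  pt : ∀ b, p (t b) = 0
  qs : ∀ a, q (s a) = 0
  hp : ∀ e, ‖p e‖ ≤ ‖e‖
  hq : ∀ e, ‖q e‖ ≤ ‖e‖
  hs : ∀ a, ‖s a‖ ≤ ‖a‖
  ht : ∀ b, ‖t b‖ ≤ ‖b‖
  hmax : ∀ e, ‖e‖ ≤ max ‖p e‖ ‖q e‖

namespace MSum

variable {E : Type u} {A : Type v} {B : Type w} [NormedAddCommGroup E] [NormedSpace ℝ E]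
  [NormedAddCommGroup A] [NormedSpace ℝ A] [NormedAddCommGroup B] [NormedSpace ℝ B]
  (m : MSum E A B)

theorem decomp (e : E) : m.s (m.p e) + m.t (m.q e) = e := by
  have h := m.hmax (m.s (m.p e) + m.t (m.q e) - e)
  rw [map_sub, map_add, map_sub, map_add, m.ps, m.pt, m.qs, m.qt, add_zero, zero_add, sub_self,
    sub_self, norm_zero, norm_zero, max_self] at h
  exact sub_eq_zero.1 (norm_le_zero_iff.1 h)

theorem norm_pair (a : A) (b : B) : ‖m.s a + m.t b‖ ≤ max ‖a‖ ‖b‖ := by
  have h := m.hmax (m.s a + m.t b)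
  rwa [map_add, map_add, m.ps, m.pt, m.qs, m.qt, add_zero, zero_add] at h

/-- the dual norm is the sum -/
theorem dual_sum (φ : DualSpace E) :
    ‖adj m.s m.hs φ‖ + ‖adj m.t m.ht φ‖ ≤ ‖φ‖ := by
  refine le_of_forall_pos_lt_add fun δ hδ => ?_
  obtain ⟨a, ha, ha'⟩ := exists_near (adj m.s m.hs φ) (half_pos hδ)
  obtain ⟨b, hb, hb'⟩ := exists_near (adj m.t m.ht φ) (half_pos hδ)
  rw [adj_ev] at ha' hb'
  have h1 : φ.eval (m.s a + m.t b) ≤ ‖φ‖ := by
    refine (le_abs_self _).trans ((abs_ev_le φ _).trans ?_)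
    calc ‖φ‖ * ‖m.s a + m.t b‖ ≤ ‖φ‖ * 1 :=
          mul_le_mul_of_nonneg_left ((m.norm_pair a b).trans (max_le ha hb)) (norm_nonneg _)
      _ = ‖φ‖ := mul_one _
  rw [ev_add] at h1
  linarith

/-- the bidual of a sum -/
noncomputable def bidual : MSum (DualSpace (DualSpace E)) (DualSpace (DualSpace A))
    (DualSpace (DualSpace B)) where
  p := adj (adj m.p m.hp) (norm_adj _ _)
  q := adj (adj m.q m.hq) (norm_adj _ _)
  s := adj (adj m.s m.hs) (norm_adj _ _)
  t := adj (adj m.t m.ht) (norm_adj _ _)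
  ps ψ := by
    refine ext_ev fun f => ?_
    rw [adj_ev, adj_ev]
    congr 1
    refine ext_ev fun a => ?_
    rw [adj_ev, adj_ev, m.ps]
  qt ψ := by
    refine ext_ev fun f => ?_
    rw [adj_ev, adj_ev]
    congr 1
    refine ext_ev fun a => ?_
    rw [adj_ev, adj_ev, m.qt]
  pt ψ := by
    refine ext_ev fun f => ?_
    rw [adj_ev, adj_ev]
    have : (adj m.t m.ht) ((adj m.p m.hp) f) = 0 := by
      refine ext_ev fun a => ?_
      rw [adj_ev, adj_ev, m.pt, ev_zero]
      rfl
    rw [this, ev_zero]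
    rfl
  qs ψ := by
    refine ext_ev fun f => ?_
    rw [adj_ev, adj_ev]
    have : (adj m.s m.hs) ((adj m.q m.hq) f) = 0 := by
      refine ext_ev fun a => ?_
      rw [adj_ev, adj_ev, m.qs, ev_zero]
      rfl
    rw [this, ev_zero]
    rfl
  hp := norm_adj _ _
  hq := norm_adj _ _
  hs := norm_adj _ _
  ht := norm_adj _ _
  hmax ψ := by
    set M := max ‖adj (adj m.p m.hp) (norm_adj _ _) ψ‖ ‖adj (adj m.q m.hq) (norm_adj _ _) ψ‖
      with hM
    have hM0 : 0 ≤ M := le_max_of_le_left (norm_nonneg _)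
    refine norm_le ψ hM0 fun φ => ?_
    have h1 : φ = adj m.p m.hp (adj m.s m.hs φ) + adj m.q m.hq (adj m.t m.ht φ) := by
      refine ext_ev fun e => ?_
      rw [add_ev, adj_ev, adj_ev, adj_ev, adj_ev, ← ev_add, m.decomp]
    have h2 : ψ.eval φ = (adj (adj m.p m.hp) (norm_adj _ _) ψ).eval (adj m.s m.hs φ) +
        (adj (adj m.q m.hq) (norm_adj _ _) ψ).eval (adj m.t m.ht φ) := by
      rw [adj_ev, adj_ev, ← ev_add, ← h1]
    rw [h2]
    have h3 := abs_ev_le (adj (adj m.p m.hp) (norm_adj _ _) ψ) (adj m.s m.hs φ)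
    have h4 := abs_ev_le (adj (adj m.q m.hq) (norm_adj _ _) ψ) (adj m.t m.ht φ)
    calc |_| ≤ _ := abs_add_le _ _
      _ ≤ M * ‖adj m.s m.hs φ‖ + M * ‖adj m.t m.ht φ‖ :=
          add_le_add (h3.trans (mul_le_mul_of_nonneg_right (le_max_left _ _) (norm_nonneg _)))
            (h4.trans (mul_le_mul_of_nonneg_right (le_max_right _ _) (norm_nonneg _)))
      _ = M * (‖adj m.s m.hs φ‖ + ‖adj m.t m.ht φ‖) := by ring
      _ ≤ M * ‖φ‖ := mul_le_mul_of_nonneg_left (m.dual_sum φ) hM0

theorem norm_adj_p (f : DualSpace A) : ‖adj m.p m.hp f‖ = ‖f‖ := by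
  apply le_antisymm (norm_adj _ _ _)
  refine norm_le_ball f fun a ha => ?_
  have h1 : f.eval a = (adj m.p m.hp f).eval (m.s a) := by rw [adj_ev, m.ps]
  rw [h1]
  refine (le_abs_self _).trans ((abs_ev_le _ _).trans ?_)
  calc _ ≤ ‖adj m.p m.hp f‖ * 1 :=
        mul_le_mul_of_nonneg_left ((m.hs a).trans ha) (norm_nonneg _)
    _ = _ := mul_one _

theorem norm_adj_q (f : DualSpace B) : ‖adj m.q m.hq f‖ = ‖f‖ := by
  apply le_antisymm (norm_adj _ _ _)
  refine norm_le_ball f fun a ha => ?_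
  have h1 : f.eval a = (adj m.q m.hq f).eval (m.t a) := by rw [adj_ev, m.qt]
  rw [h1]
  refine (le_abs_self _).trans ((abs_ev_le _ _).trans ?_)
  calc _ ≤ ‖adj m.q m.hq f‖ * 1 :=
        mul_le_mul_of_nonneg_left ((m.ht a).trans ha) (norm_nonneg _)
    _ = _ := mul_one _

include m

/-- If the sum has the property then one of the summands has it. -/
theorem split (h : SSD2P E) : SSD2P A ∨ SSD2P B := by
  by_contra hcon
  rw [not_or] at hcon
  obtain ⟨hA, hB⟩ := hcon
  simp only [SSD2P, not_forall] at hA hB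
  obtain ⟨n, f, α, hf, hα, ε, hε, hA⟩ := hA
  obtain ⟨k, g, β, hg, hβ, ε', hε', hB⟩ := hB
  obtain ⟨x, y, hy1, hy2, hx⟩ := h (n + k)
    (Fin.append (fun i => adj m.p m.hp (f i)) (fun j => adj m.q m.hq (g j)))
    (Fin.append α β) (by
      intro i
      refine Fin.addCases (fun i => ?_) (fun i => ?_) i
      · rw [Fin.append_left, m.norm_adj_p, hf]
      · rw [Fin.append_right, m.norm_adj_q, hg]) (by
      intro i
      refine Fin.addCases (fun i => ?_) (fun i => ?_) i
      · rw [Fin.append_left]; exact hα i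
      · rw [Fin.append_right]; exact hβ i) (min ε ε') (lt_min hε hε')
  have hxl : ∀ (i : Fin n) (z : E), z ∈ Slice (adj m.p m.hp (f i)) (α i) →
      m.p z ∈ Slice (f i) (α i) := fun i z hz => ⟨(m.hp z).trans hz.1, hz.2⟩
  have hxr : ∀ (i : Fin k) (z : E), z ∈ Slice (adj m.q m.hq (g i)) (β i) →
      m.q z ∈ Slice (g i) (β i) := fun i z hz => ⟨(m.hq z).trans hz.1, hz.2⟩
  have hy3 := m.hmax y
  rcases le_total ‖m.p y‖ ‖m.q y‖ with hle | hle
  · rw [max_eq_right hle] at hy3
    apply hB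
    refine ⟨fun j => m.q (x (Fin.natAdd n j)), m.q y, (m.hq y).trans hy1, ?_, fun j => ?_⟩
    · have := min_le_right ε ε'
      linarith
    · have h1 := hx (Fin.natAdd n j)
      rw [Fin.append_right, Fin.append_right] at h1
      exact ⟨hxr _ _ h1.1, by rw [← map_add]; exact hxr _ _ h1.2.1,
        by rw [← map_sub]; exact hxr _ _ h1.2.2⟩
  · rw [max_eq_left hle] at hy3
    apply hA
    refine ⟨fun j => m.p (x (Fin.castAdd k j)), m.p y, (m.hp y).trans hy1, ?_, fun j => ?_⟩
    · have := min_le_left ε ε'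
      linarith
    · have h1 := hx (Fin.castAdd k j)
      rw [Fin.append_left, Fin.append_left] at h1
      exact ⟨hxl _ _ h1.1, by rw [← map_add]; exact hxl _ _ h1.2.1,
        by rw [← map_sub]; exact hxl _ _ h1.2.2⟩

/-- If the first summand has the property then the sum has it. -/
theorem of_left (h : SSD2P A) : SSD2P E := by
  -- a norm one functional on `A`
  obtain ⟨F, hF⟩ : ∃ F : DualSpace A, ‖F‖ = 1 := by
    obtain ⟨-, y, -, hy, -⟩ := h 0 (fun i => i.elim0) (fun i => i.elim0) (fun i => i.elim0)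
      (fun i => i.elim0) (1 / 2) (by norm_num)
    have hy0 : ‖y‖ ≠ 0 := by linarith
    obtain ⟨g, hg, -⟩ := exists_dual_vector ℝ y hy0
    exact ⟨g, hg⟩
  intro n φ α hφ hα ε hε
  classical
  set f : Fin n → DualSpace A := fun i => adj m.s m.hs (φ i) with hf
  set g : Fin n → DualSpace B := fun i => adj m.t m.ht (φ i) with hg
  have hsum : ∀ i, 1 ≤ ‖f i‖ + ‖g i‖ := by
    intro i
    rw [← hφ i]
    refine norm_le_ball _ fun e he => ?_
    have h1 : (φ i).eval e = (f i).eval (m.p e) + (g i).eval (m.q e) := by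
      rw [hf, hg]
      simp only
      rw [adj_ev, adj_ev, ← ev_add, m.decomp]
    rw [h1]
    have h2 := (le_abs_self _).trans (abs_ev_le (f i) (m.p e))
    have h3 := (le_abs_self _).trans (abs_ev_le (g i) (m.q e))
    have h4 : ‖f i‖ * ‖m.p e‖ ≤ ‖f i‖ * 1 :=
      mul_le_mul_of_nonneg_left ((m.hp e).trans he) (norm_nonneg _)
    have h5 : ‖g i‖ * ‖m.q e‖ ≤ ‖g i‖ * 1 :=
      mul_le_mul_of_nonneg_left ((m.hq e).trans he) (norm_nonneg _)
    linarith
  choose b hb1 hb2 using fun i => exists_near (g i) (half_pos (hα i))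
  have hfle : ∀ i, ‖f i‖ ≤ 1 := fun i => (norm_adj _ _ _).trans (hφ i).le
  obtain ⟨x, y, hy1, hy2, hx⟩ := h n
    (fun i => if f i = 0 then F else ‖f i‖⁻¹ • f i) (fun i => α i / 2) (by
      intro i
      by_cases h0 : f i = 0
      · rw [if_pos h0, hF]
      · rw [if_neg h0, norm_smul, norm_inv, norm_norm]
        exact inv_mul_cancel₀ (norm_ne_zero_iff.2 h0)) (fun i => half_pos (hα i)) ε hε
  have key : ∀ i z, z ∈ Slice (if f i = 0 then F else ‖f i‖⁻¹ • f i) (α i / 2) →
      m.s z + m.t (b i) ∈ Slice (φ i) (α i) := by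
    rintro i z ⟨hz1, hz2⟩
    refine ⟨(m.norm_pair z (b i)).trans (max_le hz1 (hb1 i)), ?_⟩
    have h1 : (φ i).eval (m.s z + m.t (b i)) = (f i).eval z + (g i).eval (b i) := by
      rw [ev_add]; rfl
    rw [h1]
    have h2 : ‖f i‖ - α i / 2 ≤ (f i).eval z := by
      by_cases h0 : f i = 0
      · rw [h0, norm_zero]
        have : (0 : DualSpace A).eval z = 0 := rfl
        rw [this]
        have := hα i
        linarith
      · rw [if_neg h0, smul_ev] at hz2
        have hpos : 0 < ‖f i‖ := norm_pos_iff.2 h0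
        have h3 : ‖f i‖ * (1 - α i / 2) ≤ (f i).eval z := by
          have h4 := mul_le_mul_of_nonneg_left hz2.le hpos.le
          rwa [← mul_assoc, mul_inv_cancel₀ hpos.ne', one_mul] at h4
        have h5 : ‖f i‖ * (α i / 2) ≤ 1 * (α i / 2) :=
          mul_le_mul_of_nonneg_right (hfle i) (half_pos (hα i)).le
        linarith
    have h6 := hb2 i
    have h7 := hsum i
    linarith
  refine ⟨fun i => m.s (x i) + m.t (b i), m.s y, (m.hs y).trans hy1, ?_, fun i => ?_⟩
  · have : ‖y‖ ≤ ‖m.s y‖ := by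
      have := m.hp (m.s y)
      rwa [m.ps] at this
    linarith
  · obtain ⟨h1, h2, h3⟩ := hx i
    refine ⟨key i _ h1, ?_, ?_⟩
    · have := key i _ h2
      rw [map_add] at this
      have e : m.s (x i) + m.t (b i) + m.s y = m.s (x i) + m.s y + m.t (b i) := by abel
      rw [e]
      exact this
    · have := key i _ h3
      rw [map_sub] at this
      have e : m.s (x i) + m.t (b i) - m.s y = m.s (x i) - m.s y + m.t (b i) := by abel
      rw [e]
      exact this

theorem stronglyExposed (hA : HasStronglyExposedPoint A) (hB : HasStronglyExposedPoint B) :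
    HasStronglyExposedPoint E := by
  obtain ⟨u, f, hu, hf, hfu, hex⟩ := hA
  obtain ⟨v, g, hv, hg, hgv, hex'⟩ := hB
  set e := m.s u + m.t v with he
  set F : DualSpace E := (1 / 2 : ℝ) • (adj m.p m.hp f + adj m.q m.hq g) with hF
  have hFev : ∀ x, F.eval x = (1 / 2) * (f.eval (m.p x) + g.eval (m.q x)) := fun x => rfl
  have hpe : m.p e = u := by rw [he, map_add, m.ps, m.pt, add_zero]
  have hqe : m.q e = v := by rw [he, map_add, m.qs, m.qt, zero_add]
  have he1 : ‖e‖ ≤ 1 := (m.norm_pair u v).trans (max_le hu.le hv.le)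
  have hFe : F.eval e = 1 := by
    rw [hFev, hpe, hqe, hfu, hgv]
    norm_num
  have hF1 : ‖F‖ ≤ 1 := by
    refine norm_le_ball F fun x hx => ?_
    rw [hFev]
    have h1 := ev_le_one hf.le ((m.hp x).trans hx)
    have h2 := ev_le_one hg.le ((m.hq x).trans hx)
    linarith
  have hFe' := abs_ev_le F e
  rw [hFe, abs_one] at hFe'
  refine ⟨e, F, le_antisymm he1 ?_, le_antisymm hF1 ?_, hFe, fun η hη => ?_⟩
  · nlinarith [norm_nonneg e, norm_nonneg F]
  · nlinarith [norm_nonneg e, norm_nonneg F]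
  · obtain ⟨α, hα, h1⟩ := hex η hη
    obtain ⟨β, hβ, h2⟩ := hex' η hη
    refine ⟨min α β / 2, by positivity, fun x hx => ?_⟩
    obtain ⟨hx1, hx2⟩ := hx
    rw [hFev] at hx2
    have h3 := ev_le_one hf.le ((m.hp x).trans hx1)
    have h4 := ev_le_one hg.le ((m.hq x).trans hx1)
    have h5 := min_le_left α β
    have h6 := min_le_right α β
    refine (m.hmax _).trans (max_le ?_ ?_)
    · rw [map_sub, hpe]
      exact h1 _ ⟨(m.hp x).trans hx1, by linarith⟩
    · rw [map_sub, hqe]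
      exact h2 _ ⟨(m.hq x).trans hx1, by linarith⟩

end MSum

/-- the product with the maximum norm -/
noncomputable def prodSum (A : Type v) (B : Type w) [NormedAddCommGroup A] [NormedSpace ℝ A]
    [NormedAddCommGroup B] [NormedSpace ℝ B] : MSum (A × B) A B where
  p := LinearMap.fst ℝ A B
  q := LinearMap.snd ℝ A B
  s := LinearMap.inl ℝ A B
  t := LinearMap.inr ℝ A B
  ps _ := rfl
  qt _ := rfl
  pt _ := rfl
  qs _ := rfl
  hp e := norm_fst_le e
  hq e := norm_snd_le e
  hs a := by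
    show ‖((a, 0) : A × B)‖ ≤ ‖a‖
    rw [Prod.norm_mk, norm_zero, max_eq_left (norm_nonneg _)]
  ht b := by
    show ‖((0, b) : A × B)‖ ≤ ‖b‖
    rw [Prod.norm_mk, norm_zero, max_eq_right (norm_nonneg _)]
  hmax e := le_of_eq (Prod.norm_def e)

/-! ## Strongly exposed points -/

section exposed

variable {X : Type u} [NormedAddCommGroup X] [NormedSpace ℝ X]

theorem not_ssd2p (h : HasStronglyExposedPoint X) : ¬ SSD2P X := by
  obtain ⟨u, f, -, hf, -, hex⟩ := h
  intro hss
  obtain ⟨α, hα, h1⟩ := hex (1 / 4) (by norm_num)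
  obtain ⟨x, y, -, hy2, h⟩ := hss 1 (fun _ => f) (fun _ => α) (fun _ => hf) (fun _ => hα)
    (1 / 2) (by norm_num)
  obtain ⟨-, h2, h3⟩ := h 0
  have h4 := h1 _ h2
  have h5 := h1 _ h3
  have h6 : (2 : ℝ) • y = (x 0 + y - u) - (x 0 - y - u) := by
    rw [two_smul]; abel
  have h7 : ‖(2 : ℝ) • y‖ ≤ 1 / 2 := by
    rw [h6]
    calc _ ≤ ‖x 0 + y - u‖ + ‖x 0 - y - u‖ := norm_sub_le _ _
      _ ≤ 1 / 2 := by linarith
  rw [norm_smul, Real.norm_of_nonneg (by norm_num)] at h7
  linarith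

/-- Helly's theorem for two functionals. -/
theorem helly (ψ : DualSpace (DualSpace X)) (hψ : ‖ψ‖ ≤ 1) (f g : DualSpace X) {δ : ℝ}
    (hδ : 0 < δ) : ∃ x : X, ‖x‖ ≤ 1 ∧ |f.eval x - ψ.eval f| < δ ∧ |g.eval x - ψ.eval g| < δ := by
  set C : Set (ℝ × ℝ) := (fun x : X => (f.eval x, g.eval x)) '' {x | ‖x‖ ≤ 1} with hC
  have hconv : Convex ℝ C := by
    have h1 : Convex ℝ {x : X | ‖x‖ ≤ 1} := by
      have := convex_closedBall (0 : X) 1
      simpa [Metric.closedBall, dist_zero_right] using this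
    rintro _ ⟨x, hx, rfl⟩ _ ⟨y, hy, rfl⟩ a b ha hb hab
    refine ⟨a • x + b • y, h1 hx hy ha hb hab, ?_⟩
    simp only [ev_add, ev_smul, Prod.smul_mk, smul_eq_mul, Prod.mk_add_mk]
  have hmem : (ψ.eval f, ψ.eval g) ∈ closure C := by
    by_contra hcon
    obtain ⟨L, r, hL1, hL2⟩ := geometric_hahn_banach_closed_point hconv.closure isClosed_closure
      hcon
    have hLe : ∀ a b : ℝ, L (a, b) = a * L (1, 0) + b * L (0, 1) := by
      intro a b
      have : ((a, b) : ℝ × ℝ) = a • ((1, 0) : ℝ × ℝ) + b • ((0, 1) : ℝ × ℝ) := by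
        simp
      rw [this, map_add, map_smul, map_smul, smul_eq_mul, smul_eq_mul]
    set h : DualSpace X := L (1, 0) • f + L (0, 1) • g with hh
    have h1 : ‖h‖ ≤ r := by
      refine norm_le_ball h fun x hx => ?_
      have h2 : h.eval x = L (f.eval x, g.eval x) := by
        rw [hh, add_ev, smul_ev, smul_ev, hLe (f.eval x) (g.eval x)]
        ring
      rw [h2]
      exact (hL1 _ (subset_closure ⟨x, hx, rfl⟩)).le
    have h3 : ψ.eval h = L (ψ.eval f, ψ.eval g) := by
      rw [hh, ev_add, ev_smul, ev_smul, hLe (ψ.eval f) (ψ.eval g)]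
      ring
    have h4 : ψ.eval h ≤ ‖h‖ := by
      refine (le_abs_self _).trans ((abs_ev_le ψ h).trans ?_)
      calc ‖ψ‖ * ‖h‖ ≤ 1 * ‖h‖ := mul_le_mul_of_nonneg_right hψ (norm_nonneg _)
        _ = ‖h‖ := one_mul _
    linarith
  obtain ⟨_, ⟨x, hx, rfl⟩, hx2⟩ := Metric.mem_closure_iff.1 hmem δ hδ
  rw [Prod.dist_eq, max_lt_iff, Real.dist_eq, Real.dist_eq] at hx2
  refine ⟨x, hx, ?_, ?_⟩
  · rw [abs_sub_comm]; exact hx2.1
  · rw [abs_sub_comm]; exact hx2.2

/-- the canonical image in the bidual -/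
noncomputable def emb (x : X) : DualSpace (DualSpace X) :=
  mk
    { toFun := fun f => f.eval x
      map_add' := fun _ _ => rfl
      map_smul' := fun _ _ => rfl } ‖x‖
    (fun f => by
      rw [mul_comm]
      exact abs_ev_le f x)

theorem emb_ev (x : X) (f : DualSpace X) : (emb x).eval f = f.eval x := rfl

theorem norm_emb_le (x : X) : ‖emb x‖ ≤ ‖x‖ :=
  norm_le _ (norm_nonneg _) fun f => by
    rw [mul_comm]
    exact abs_ev_le f x

theorem exposed_bidual (h : HasStronglyExposedPoint X) :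
    HasStronglyExposedPoint (DualSpace (DualSpace X)) := by
  obtain ⟨u, f, hu, hf, hfu, hex⟩ := h
  have h1 : (emb f).eval (emb u) = 1 := by rw [emb_ev, emb_ev, hfu]
  have hn := abs_ev_le (emb f) (emb u)
  rw [h1, abs_one] at hn
  have hu1 : ‖emb u‖ ≤ 1 := (norm_emb_le u).trans hu.le
  have hf1 : ‖emb f‖ ≤ 1 := (norm_emb_le f).trans hf.le
  refine ⟨emb u, emb f, le_antisymm hu1 ?_, le_antisymm hf1 ?_, h1, fun η hη => ?_⟩
  · nlinarith [norm_nonneg (emb u), norm_nonneg (emb f)]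
  · nlinarith [norm_nonneg (emb u), norm_nonneg (emb f)]
  · obtain ⟨α, hα, hex⟩ := hex η hη
    refine ⟨α, hα, fun ψ hψ => ?_⟩
    obtain ⟨hψ1, hψ2⟩ := hψ
    rw [emb_ev] at hψ2
    refine norm_le_ball _ fun g hg => ?_
    refine le_of_forall_pos_le_add fun δ hδ => ?_
    obtain ⟨x, hx, hx1, hx2⟩ := helly ψ hψ1 f g
      (lt_min hδ (show 0 < ψ.eval f - (1 - α) by linarith))
    have h3 : x ∈ Slice f α := by
      refine ⟨hx, ?_⟩
      have h4 := (abs_lt.1 hx1).1
      have h5 := min_le_right δ (ψ.eval f - (1 - α))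
      linarith
    have h6 := hex x h3
    have h7 : g.eval (x - u) ≤ η := by
      refine (le_abs_self _).trans ((abs_ev_le g _).trans ?_)
      calc ‖g‖ * ‖x - u‖ ≤ 1 * η := mul_le_mul hg h6 (norm_nonneg _) zero_le_one
        _ = η := one_mul _
    rw [ev_sub] at h7
    rw [sub_ev, emb_ev]
    have h8 := (abs_lt.1 hx2).1
    have h9 := min_le_left δ (ψ.eval f - (1 - α))
    linarith

theorem hilbert_exposed (H : Type u) [NormedAddCommGroup H] [InnerProductSpace ℝ H]
    [Nontrivial H] : HasStronglyExposedPoint H := by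
  obtain ⟨w, hw⟩ := exists_ne (0 : H)
  set u : H := ‖w‖⁻¹ • w with hu
  have hu1 : ‖u‖ = 1 := by
    rw [hu, norm_smul, norm_inv, norm_norm]
    exact inv_mul_cancel₀ (norm_ne_zero_iff.2 hw)
  let f : DualSpace H := innerSL ℝ u
  have hfe : ∀ x, f.eval x = inner ℝ u x := fun x => rfl
  have hfu : f.eval u = 1 := by
    rw [hfe, real_inner_self_eq_norm_sq, hu1, one_pow]
  have hf1 : ‖f‖ ≤ 1 := by
    refine norm_le_ball f fun x hx => ?_
    rw [hfe]
    refine (real_inner_le_norm u x).trans ?_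
    rw [hu1, one_mul]
    exact hx
  refine ⟨u, f, hu1, le_antisymm hf1 ?_, hfu, fun η hη => ⟨η ^ 2 / 2, by positivity, ?_⟩⟩
  · have := abs_ev_le f u
    rwa [hfu, abs_one, hu1, mul_one] at this
  · rintro x ⟨hx1, hx2⟩
    rw [hfe] at hx2
    have h1 : ‖x - u‖ ^ 2 = ‖x‖ ^ 2 - 2 * inner ℝ u x + ‖u‖ ^ 2 := by
      rw [norm_sub_sq_real, real_inner_comm]
    have h2 : ‖x - u‖ ^ 2 ≤ η ^ 2 := by
      rw [h1, hu1]
      nlinarith [norm_nonneg x]
    exact (pow_le_pow_iff_left₀ (norm_nonneg _) hη.le two_ne_zero).1 h2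

end exposed

theorem evenDual_exposed (E : NSp.{u}) (h : HasStronglyExposedPoint E.carrier) (k : ℕ) :
    HasStronglyExposedPoint (evenDual E k).carrier := by
  induction k with
  | zero => exact h
  | succ k ih =>
    have : evenDual E (k + 1) = (evenDual E k).bidual := Function.iterate_succ_apply' _ _ _
    rw [this]
    exact exposed_bidual ih

/-- (1) Every Banach space `Y` whose bidual fails the SSD2P is a 1-complemented subspace of a Banach
space `Z` with the SSD2P whose bidual fails the SSD2P. (2) If the closed unit ball of the Banach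
space `Y` has a strongly exposed point, then `Y` is a 1-complemented subspace of a Banach space `Z`
with the SSD2P such that none of the even duals `Z^(2k)`, `k ≥ 1`, has the SSD2P; their closed unit
balls have strongly exposed points. (3) The closed unit ball of every Hilbert space `H ≠ 0`, of any
dimension, has a strongly exposed point. -/
theorem result :
    (∀ (Y : Type u) [NormedAddCommGroup Y] [NormedSpace ℝ Y] [CompleteSpace Y],
      ¬ SSD2P (DualSpace (DualSpace Y)) →
      ∃ (Z : Type u) (_ : NormedAddCommGroup Z) (_ : NormedSpace ℝ Z) (_ : CompleteSpace Z),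
        OneComplemented Y Z ∧ SSD2P Z ∧ ¬ SSD2P (DualSpace (DualSpace Z))) ∧
    (∀ (Y : Type u) [NormedAddCommGroup Y] [NormedSpace ℝ Y] [CompleteSpace Y],
      HasStronglyExposedPoint Y →
      ∃ (Z : Type u) (_ : NormedAddCommGroup Z) (_ : NormedSpace ℝ Z) (_ : CompleteSpace Z),
        OneComplemented Y Z ∧ SSD2P Z ∧ ∀ k : ℕ, 1 ≤ k →
          ¬ SSD2P (evenDual ⟨Z⟩ k).carrier ∧ HasStronglyExposedPoint (evenDual ⟨Z⟩ k).carrier) ∧
    (∀ (H : Type u) [NormedAddCommGroup H] [InnerProductSpace ℝ H] [Nontrivial H],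
      HasStronglyExposedPoint H) := by
  obtain ⟨X, i1, i2, i3, hX, hX2, hX3⟩ := BidualFailsSSD2P.result
  have comp : ∀ (Y : Type u) [NormedAddCommGroup Y] [NormedSpace ℝ Y],
      OneComplemented Y (X × Y) := by
    intro Y _ _
    refine ⟨⟨LinearMap.inr ℝ X Y, fun y => ?_⟩, ContinuousLinearMap.snd ℝ X Y,
      fun z => norm_snd_le z, fun y => rfl⟩
    show ‖((0, y) : X × Y)‖ = ‖y‖
    rw [Prod.norm_mk, norm_zero, max_eq_right (norm_nonneg _)]
  refine ⟨?_, ?_, fun H _ _ _ => hilbert_exposed H⟩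
  · intro Y _ _ _ hY
    refine ⟨X × Y, inferInstance, inferInstance, inferInstance, comp Y,
      (prodSum X Y).of_left hX, fun h => ?_⟩
    rcases (prodSum X Y).bidual.split h with h1 | h1
    · exact hX2 h1
    · exact hY h1
  · intro Y _ _ _ hY
    refine ⟨X × Y, inferInstance, inferInstance, inferInstance, comp Y,
      (prodSum X Y).of_left hX, fun k hk => ?_⟩
    obtain ⟨k, rfl⟩ : ∃ j, k = j + 1 := ⟨k - 1, by omega⟩
    have h1 : HasStronglyExposedPoint (NSp.bidual ⟨X × Y⟩).carrier :=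
      (prodSum X Y).bidual.stronglyExposed hX3 (exposed_bidual hY)
    have h2 : HasStronglyExposedPoint (evenDual ⟨X × Y⟩ (k + 1)).carrier :=
      evenDual_exposed (NSp.bidual ⟨X × Y⟩) h1 k
    exact ⟨not_ssd2p h2, h2⟩

end Pool.Agent.Results.MP_a7d15e_an.AllEvenDuals
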